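import Pool.Agent.P.MP_a06b07_gt.Exact

/-! The space is not a countable union of subspaces with a point-countable base. -/

set_option autoImplicit false

namespace Pool.Agent.P.MP_a06b07_gt

open Set Topology TopologicalSpace

theorem exists_colour {α : Type} (𝒢 : Set (Set α)) (hc : ∀ G ∈ 𝒢, G.Countable)
    (hp : ∀ y, {G ∈ 𝒢 | y ∈ G}.Countable) :
    ∃ f : α → ℕ, ∀ G ∈ 𝒢, ∀ x ∈ G, ∀ y ∈ G, f x = f y → x = y := by
  let r : α → α → Prop := fun x y => ∃ G ∈ 𝒢, x ∈ G ∧ y ∈ G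
  have hr : ∀ x y, r x y → r y x := fun x y ⟨G, h1, h2, h3⟩ => ⟨G, h1, h3, h2⟩
  have hs : ∀ x y, Relation.ReflTransGen r x y → Relation.ReflTransGen r y x := by
    intro x y h
    induction h with
    | refl => exact .refl
    | tail _ h ih => exact .head (hr _ _ h) ih
  let s : Setoid α := ⟨Relation.ReflTransGen r, fun _ => .refl,
    fun h => hs _ _ h, fun h h' => h.trans h'⟩
  have h1 : ∀ x, {y | Relation.ReflTransGen r x y}.Countable := by
    intro x
    let S : ℕ → Set α := fun k => Nat.rec {x} (fun _ T => ⋃ y ∈ T, ⋃ G ∈ {G ∈ 𝒢 | y ∈ G}, G) k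
    have hS : ∀ k, (S k).Countable := by
      intro k
      induction k with
      | zero => exact countable_singleton x
      | succ k ih => exact ih.biUnion fun y _ => (hp y).biUnion fun G hG => hc G hG.1
    refine (countable_iUnion hS).mono fun y hy => ?_
    induction hy with
    | refl => exact mem_iUnion.2 ⟨0, rfl⟩
    | tail _ h ih =>
      obtain ⟨k, hk⟩ := mem_iUnion.1 ih
      obtain ⟨G, h1, h2, h3⟩ := h
      exact mem_iUnion.2 ⟨k + 1, mem_iUnion₂.2 ⟨_, hk, mem_iUnion₂.2 ⟨G, ⟨h1, h2⟩, h3⟩⟩⟩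
  have h2 : ∀ q : Quotient s, ∃ g : α → ℕ, InjOn g {y | Quotient.mk s y = q} := by
    intro q
    obtain ⟨x, rfl⟩ := q.exists_rep
    exact countable_iff_exists_injOn.1 ((h1 x).mono fun y hy => Quotient.exact (Eq.symm hy))
  choose g hg using h2
  refine ⟨fun x => g (Quotient.mk s x) x, fun G hG x hx y hy h => ?_⟩
  have e : Quotient.mk s x = Quotient.mk s y :=
    Quotient.sound (Relation.ReflTransGen.single ⟨G, hG, hx, hy⟩)
  exact hg (Quotient.mk s y) e rfl (by simpa only [e] using h)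

theorem not_base (D : ℕ → Set (OnePoint Y)) (hcov : (⋃ n, D n) = univ)
    (ℬ : ∀ n, Set (Set (D n))) (hB : ∀ n, IsTopologicalBasis (ℬ n))
    (hp : ∀ n x, {B ∈ ℬ n | x ∈ B}.Countable) : False := by
  have h1 : ∀ n, ∃ f : D n → ℕ, ∀ G ∈ {B ∈ ℬ n | B.Countable}, ∀ x ∈ G, ∀ y ∈ G,
      f x = f y → x = y := fun n =>
    exists_colour _ (fun G hG => hG.2) fun y => (hp n y).mono fun G hG =>
      mem_sep_iff.2 ⟨hG.1.1, hG.2⟩
  choose f hf using h1
  refine not_sigma_discrete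
    (fun m => {y | ∃ h : (y : OnePoint Y) ∈ D m.unpair.1, f _ ⟨y, h⟩ = m.unpair.2}) ?_ ?_
  · intro y
    obtain ⟨n, hn⟩ := mem_iUnion.1 (hcov ▸ mem_univ (y : OnePoint Y))
    refine ⟨Nat.pair n (f n ⟨y, hn⟩), ?_⟩
    have e := Nat.unpair_pair n (f n ⟨y, hn⟩)
    generalize Nat.pair n (f n ⟨y, hn⟩) = m at e
    change ∃ h : (y : OnePoint Y) ∈ D m.unpair.1, f _ ⟨y, h⟩ = m.unpair.2
    rw [e]
    exact ⟨hn, rfl⟩
  · rintro m y ⟨hy, e⟩
    have ho : IsOpen ((↑) ⁻¹' (((↑) : Y → OnePoint Y) '' U y 0) : Set (D m.unpair.1)) :=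
      (OnePoint.isOpenMap_coe _ (isOpen_U y 0)).preimage continuous_subtype_val
    have hm : (⟨y, hy⟩ : D m.unpair.1) ∈
        ((↑) ⁻¹' (((↑) : Y → OnePoint Y) '' U y 0) : Set (D m.unpair.1)) :=
      ⟨y, Mem.self y 0, rfl⟩
    obtain ⟨B, hB1, hB2, hB3⟩ := (hB _).exists_subset_of_mem_open hm ho
    have hc : B.Countable :=
      (((countable_U y 0).image _).preimage Subtype.val_injective).mono hB3
    obtain ⟨W, hW, rfl⟩ := isOpen_induced_iff.1 ((hB _).isOpen hB1)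
    refine ⟨(↑) ⁻¹' W, hW.preimage OnePoint.continuous_coe, hB2, ?_⟩
    rintro z hz ⟨hz', e'⟩
    have := hf _ _ ⟨hB1, hc⟩ ⟨z, hz'⟩ hz ⟨y, hy⟩ hB2 (e'.trans e.symm)
    exact OnePoint.coe_injective (congrArg Subtype.val this)

end Pool.Agent.P.MP_a06b07_gt
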