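import Pool.Agent.P.MP_a06b07_gt.Space

/-!
Further properties of the example: countable compact open neighbourhoods, a continuous injection
into the Cantor set away from the added point, and the exact number of discrete subspaces needed.
-/

set_option autoImplicit false

namespace Pool.Agent.P.MP_a06b07_gt

open Set Topology Cardinal

theorem countable_U (y : Y) : ∀ k, (U y k).Countable := by
  have key : ∀ y : Y, (∀ j, Good y j → (U (kid y j) j).Countable) → ∀ k, (U y k).Countable := by
    intro y hy k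
    refine ((Set.Countable.biUnion (s := {j | Good y j}) (to_countable _) hy).insert y).mono ?_
    intro z hz
    have hz' : Mem y k z := hz
    cases hz' with
    | self => exact mem_insert _ _
    | @step _ _ j _ h1 h2 h3 => exact mem_insert_of_mem _ (mem_biUnion (x := j) h2 h3)
  induction y with
  | leaf => exact key _ fun j hj => absurd hj.1 (lt_irrefl _)
  | node ξ s ih => exact key _ fun j _ => ih _ j

theorem exists_nhd (x : OnePoint Y) (hx : x ≠ OnePoint.infty) :
    ∃ V : Set (OnePoint Y), x ∈ V ∧ IsOpen V ∧ IsCompact V ∧ V.Countable := by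
  induction x using OnePoint.rec with
  | infty => exact absurd rfl hx
  | coe y =>
    exact ⟨(↑) '' U y 0, ⟨y, Mem.self y 0, rfl⟩,
      OnePoint.isOpenEmbedding_coe.isOpenMap _ (isOpen_U y 0),
      (isCompact_U y 0).image OnePoint.continuous_coe, (countable_U y 0).image _⟩

theorem exists_inj : ∃ f : OnePoint Y → ℕ → Bool,
    ContinuousOn f {OnePoint.infty}ᶜ ∧ InjOn f {OnePoint.infty}ᶜ := by
  refine ⟨fun x => OnePoint.rec (fun _ => true) pos x, fun x hx => ?_, fun x hx z hz h => ?_⟩
  · induction x using OnePoint.rec with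
    | infty => exact absurd rfl hx
    | coe y =>
      refine ContinuousAt.continuousWithinAt ?_
      rw [OnePoint.continuousAt_coe]
      exact continuous_pos.continuousAt
  · induction x using OnePoint.rec with
    | infty => exact absurd rfl hx
    | coe y =>
      induction z using OnePoint.rec with
      | infty => exact absurd rfl hz
      | coe z => exact congrArg _ (pos_inj h)

theorem discrete_level (a : WithBot (WithBot Om)) :
    DiscreteTopology {x : OnePoint Y | rk' x = a} := by
  rw [discreteTopology_iff_isOpen_singleton]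
  rintro ⟨x, hx⟩
  rw [isOpen_induced_iff]
  induction x using OnePoint.rec with
  | infty =>
    refine ⟨Set.univ, isOpen_univ, ?_⟩
    ext ⟨z, hz⟩
    simp only [preimage_univ, mem_univ, mem_singleton_iff, Subtype.mk.injEq, true_iff]
    induction z using OnePoint.rec with
    | infty => rfl
    | coe z => exact absurd (hz.trans hx.symm) WithBot.coe_ne_bot
  | coe y =>
    refine ⟨(↑) '' U y 0, OnePoint.isOpenEmbedding_coe.isOpenMap _ (isOpen_U y 0), ?_⟩
    ext ⟨z, hz⟩
    simp only [mem_preimage, mem_singleton_iff, Subtype.mk.injEq]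
    constructor
    · rintro ⟨w, hw, rfl⟩
      rcases Mem.rank hw with rfl | h
      · rfl
      · exact absurd (WithBot.coe_injective (hx.trans hz.symm)) h.ne
    · rintro rfl
      exact ⟨y, Mem.self y 0, rfl⟩

theorem isLeast_dis : IsLeast {κ : Cardinal | ∃ 𝒟 : Set (Set (OnePoint Y)),
    #𝒟 = κ ∧ ⋃₀ 𝒟 = Set.univ ∧ ∀ D ∈ 𝒟, DiscreteTopology D} (ℵ_ 1) := by
  have low : ∀ 𝒟 : Set (Set (OnePoint Y)), ⋃₀ 𝒟 = Set.univ → (∀ D ∈ 𝒟, DiscreteTopology D) →
      ℵ_ 1 ≤ #𝒟 := by
    intro 𝒟 h1 h2
    by_contra h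
    have hc : 𝒟.Countable := by
      rw [← Cardinal.le_aleph0_iff_set_countable]
      exact Order.lt_succ_iff.mp ((not_le.1 h).trans_eq Cardinal.succ_aleph0.symm)
    have hne : 𝒟.Nonempty := by
      obtain ⟨D, hD, -⟩ := mem_sUnion.1 (h1 ▸ mem_univ (OnePoint.infty : OnePoint Y))
      exact ⟨D, hD⟩
    obtain ⟨D, rfl⟩ := hc.exists_eq_range hne
    exact main ⟨D, by rwa [sUnion_range] at h1, fun n => h2 _ ⟨n, rfl⟩⟩
  have h1 : ⋃₀ (range fun a => {x : OnePoint Y | rk' x = a}) = Set.univ :=
    eq_univ_of_forall fun x => ⟨_, ⟨rk' x, rfl⟩, rfl⟩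
  have h2 : ∀ D ∈ range fun a => {x : OnePoint Y | rk' x = a}, DiscreteTopology D := by
    rintro _ ⟨a, rfl⟩
    exact discrete_level a
  refine ⟨⟨_, le_antisymm ?_ (low _ h1 h2), h1, h2⟩, ?_⟩
  · refine Cardinal.mk_range_le.trans ?_
    have e : #(WithBot (WithBot Om)) = ℵ_ 1 + 1 + 1 := by
      change #(Option (Option Om)) = _
      rw [Cardinal.mk_option, Cardinal.mk_option, Cardinal.mk_ord_toType]
    rw [e, Cardinal.add_one_eq Cardinal.aleph0_lt_aleph_one.le,
      Cardinal.add_one_eq Cardinal.aleph0_lt_aleph_one.le]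
  · rintro _ ⟨𝒟, rfl, h3, h4⟩
    exact low 𝒟 h3 h4

end Pool.Agent.P.MP_a06b07_gt
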