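import Mathlib

/-!
A locally compact Hausdorff left-separated space that is not a countable union of discrete
subspaces (in ZFC).  The points are well-founded countably branching trees whose nodes carry a
countable ordinal; the topology refines the Cantor topology along an injective code.
-/

set_option autoImplicit false

namespace Pool.Agent.P.MP_a06b07_gt

open Set Topology Cardinal

/-- The well-order of type omega one. -/
abbrev Om : Type := (Cardinal.aleph 1).ord.ToType

/-- Index set: a colour and a finite binary word. -/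
abbrev Ix : Type := ℕ × List Bool

theorem exists_gt_Om {ι : Type} [Countable ι] (b : ι → Om) : ∃ ξ : Om, ∀ i, b i < ξ := by
  by_contra h
  push Not at h
  have hc : ∀ a : Om, (Iic a).Countable := by
    intro a
    have h1 : (Iio a).Countable := by
      have h0 : #(Iio a) < #Om := Cardinal.mk_Iio_lt a (by simp)
      rw [Cardinal.mk_ord_toType] at h0
      rw [← Cardinal.le_aleph0_iff_set_countable]
      exact Order.lt_succ_iff.mp (h0.trans_eq Cardinal.succ_aleph0.symm)
    rw [← Iio_insert]
    exact h1.insert a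
  have h2 : (Set.univ : Set Om).Countable := by
    refine (countable_iUnion (fun i => hc (b i))).mono ?_
    intro x _
    obtain ⟨i, hi⟩ := h x
    exact mem_iUnion.2 ⟨i, hi⟩
  rw [← Cardinal.le_aleph0_iff_set_countable, Cardinal.mk_univ, Cardinal.mk_ord_toType] at h2
  exact absurd h2 (not_le.2 Cardinal.aleph0_lt_aleph_one)

theorem exists_code :
    ∃ c : Option (Om × (Ix → ℕ → Bool)) → (ℕ → Bool), Function.Injective c := by
  have h : #(Option (Om × (Ix → ℕ → Bool))) ≤ #(ℕ → Bool) := by
    have h1 : #(ℕ → Bool) = 𝔠 := by simp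
    have h2 : #(Ix → ℕ → Bool) = 𝔠 := by
      rw [← Cardinal.power_def, h1]
      have : #Ix = ℵ₀ := Cardinal.mk_eq_aleph0 _
      rw [this]
      exact Cardinal.continuum_power_aleph0
    have h3 : #Om ≤ 𝔠 := by
      rw [Cardinal.mk_ord_toType]
      exact Cardinal.aleph_one_le_continuum
    rw [Cardinal.mk_option, Cardinal.mk_prod, h1, h2]
    simp only [Cardinal.lift_id]
    have h4 : #Om * 𝔠 ≤ 𝔠 := by
      calc #Om * 𝔠 ≤ 𝔠 * 𝔠 := by gcongr
        _ = 𝔠 := Cardinal.continuum_mul_self
    calc #Om * 𝔠 + 1 ≤ 𝔠 + 𝔠 := add_le_add h4 (by simpa using Cardinal.nat_lt_continuum 1 |>.le)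
      _ = 𝔠 := Cardinal.continuum_add_self
  obtain ⟨e⟩ := (Cardinal.le_def _ _).1 h
  exact ⟨e, e.injective⟩

/-- An injective code. -/
noncomputable def code : Option (Om × (Ix → ℕ → Bool)) → (ℕ → Bool) := exists_code.choose

theorem code_inj : Function.Injective code := exists_code.choose_spec

/-- The points of the space. -/
inductive Y : Type
  | leaf : Y
  | node : Om → (Ix → Y) → Y

/-- The position of a point in the Cantor set. -/
noncomputable def pos : Y → ℕ → Bool
  | Y.leaf => code none
  | Y.node ξ s => code (some (ξ, fun a => pos (s a)))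

theorem pos_inj : Function.Injective pos := by
  intro y
  induction y with
  | leaf =>
    intro z h
    cases z with
    | leaf => rfl
    | node ξ s =>
      simp only [pos] at h
      exact absurd (code_inj h) (by simp)
  | node ξ s ih =>
    intro z h
    cases z with
    | leaf =>
      simp only [pos] at h
      exact absurd (code_inj h) (by simp)
    | node ξ' s' =>
      simp only [pos] at h
      have h1 := code_inj h
      simp only [Option.some.injEq, Prod.mk.injEq] at h1
      obtain ⟨rfl, h2⟩ := h1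
      congr 1
      funext a
      exact ih a (congrFun h2 a)

/-- The rank of a point. -/
def rk : Y → WithBot Om
  | Y.leaf => ⊥
  | Y.node ξ _ => ξ

/-- The first `j` digits. -/
def restr (j : ℕ) (a : ℕ → Bool) : List Bool := (List.range j).map a

theorem restr_eq_iff {j : ℕ} {a b : ℕ → Bool} :
    restr j a = restr j b ↔ ∀ i < j, a i = b i := by
  simp [restr]

/-- The `j`-th candidate child of a point. -/
noncomputable def kid (y : Y) (j : ℕ) : Y :=
  match y with
  | Y.leaf => Y.leaf
  | Y.node ξ s => s ((Nat.unpair j).1, restr j (pos (Y.node ξ s)))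

/-- The `j`-th candidate child is accepted. -/
def Good (y : Y) (j : ℕ) : Prop :=
  rk y < rk (kid y j) ∧ ∀ i < j, pos (kid y j) i = pos y i

/-- `Mem y k z`: the point `z` is in the `k`-th basic neighbourhood of `y`. -/
inductive Mem : Y → ℕ → Y → Prop
  | self (y : Y) (k : ℕ) : Mem y k y
  | step {y : Y} {k j : ℕ} {z : Y} : k ≤ j → Good y j → Mem (kid y j) j z → Mem y k z

theorem Mem.mono {y z : Y} {k k' : ℕ} (h : Mem y k z) (hk : k' ≤ k) : Mem y k' z := by
  cases h with
  | self => exact Mem.self _ _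
  | step h1 h2 h3 => exact Mem.step (hk.trans h1) h2 h3

theorem Mem.agree {y z : Y} {k : ℕ} (h : Mem y k z) : ∀ i < k, pos z i = pos y i := by
  induction h with
  | self => intro i _; rfl
  | step h1 h2 _ ih =>
    intro i hi
    rw [ih i (hi.trans_le h1), h2.2 i (hi.trans_le h1)]

theorem Mem.rank {y z : Y} {k : ℕ} (h : Mem y k z) : z = y ∨ rk y < rk z := by
  induction h with
  | self => exact Or.inl rfl
  | step _ h2 _ ih =>
    right
    rcases ih with rfl | ih
    · exact h2.1
    · exact h2.1.trans ih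

theorem Mem.nbhd {y z : Y} {k : ℕ} (h : Mem y k z) : ∃ m, ∀ w, Mem z m w → Mem y k w := by
  induction h with
  | self y k => exact ⟨k, fun _ h => h⟩
  | step h1 h2 _ ih =>
    obtain ⟨m, hm⟩ := ih
    exact ⟨m, fun w hw => Mem.step h1 h2 (hm w hw)⟩

instance topY : TopologicalSpace Y where
  IsOpen V := ∀ y ∈ V, ∃ k, ∀ z, Mem y k z → z ∈ V
  isOpen_univ := fun _ _ => ⟨0, fun _ _ => mem_univ _⟩
  isOpen_inter := by
    intro s t hs ht y hy
    obtain ⟨k, hk⟩ := hs y hy.1
    obtain ⟨l, hl⟩ := ht y hy.2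
    exact ⟨max k l, fun z hz =>
      ⟨hk z (hz.mono (le_max_left _ _)), hl z (hz.mono (le_max_right _ _))⟩⟩
  isOpen_sUnion := by
    rintro S hS y ⟨t, ht, hy⟩
    obtain ⟨k, hk⟩ := hS t ht y hy
    exact ⟨k, fun z hz => ⟨t, ht, hk z hz⟩⟩

theorem isOpen_iff {V : Set Y} : IsOpen V ↔ ∀ y ∈ V, ∃ k, ∀ z, Mem y k z → z ∈ V := Iff.rfl

/-- Basic neighbourhoods. -/
def U (y : Y) (k : ℕ) : Set Y := {z | Mem y k z}

theorem isOpen_U (y : Y) (k : ℕ) : IsOpen (U y k) :=
  isOpen_iff.2 fun _ hz => Mem.nbhd hz

theorem isCompact_U (y : Y) : ∀ k, IsCompact (U y k) := by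
  have key : ∀ y : Y, (∀ j, Good y j → IsCompact (U (kid y j) j)) →
      ∀ k, IsCompact (U y k) := by
    intro y hy k
    refine isCompact_of_finite_subcover ?_
    intro ι V hV hcov
    obtain ⟨i0, hi0⟩ := mem_iUnion.1 (hcov (Mem.self y k))
    obtain ⟨m, hm⟩ := isOpen_iff.1 (hV i0) y hi0
    have hK : IsCompact (⋃ j ∈ {j | k ≤ j ∧ j < m ∧ Good y j}, U (kid y j) j) := by
      refine Set.Finite.isCompact_biUnion ?_ (fun j hj => hy j hj.2.2)
      exact (Set.finite_lt_nat m).subset (fun j hj => hj.2.1)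
    obtain ⟨t, ht⟩ := hK.elim_finite_subcover V hV (by
      intro z hz
      simp only [mem_iUnion] at hz
      obtain ⟨j, hj, hz⟩ := hz
      exact hcov (Mem.step hj.1 hj.2.2 hz))
    classical
    refine ⟨insert i0 t, ?_⟩
    intro z hz
    simp only [mem_iUnion]
    have hz' : Mem y k z := hz
    cases hz' with
    | self => exact ⟨i0, Finset.mem_insert_self _ _, hi0⟩
    | @step _ _ j _ h1 h2 h3 =>
      by_cases hjm : j < m
      · have : z ∈ ⋃ j ∈ {j | k ≤ j ∧ j < m ∧ Good y j}, U (kid y j) j := by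
          simp only [mem_iUnion]
          exact ⟨j, ⟨h1, hjm, h2⟩, h3⟩
        have h4 := ht this
        simp only [mem_iUnion] at h4
        obtain ⟨i, hi, hz⟩ := h4
        exact ⟨i, Finset.mem_insert_of_mem hi, hz⟩
      · exact ⟨i0, Finset.mem_insert_self _ _, hm z (Mem.step (not_lt.1 hjm) h2 h3)⟩
  induction y with
  | leaf =>
    refine key _ ?_
    intro j hj
    exact absurd hj.1 (lt_irrefl _)
  | node ξ s ih =>
    refine key _ ?_
    intro j _
    exact ih _ j

theorem continuous_pos : Continuous pos := by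
  refine continuous_pi fun i => ?_
  refine continuous_def.2 fun s _ => isOpen_iff.2 ?_
  intro y hy
  refine ⟨i + 1, fun z hz => ?_⟩
  have := hz.agree i (Nat.lt_succ_self i)
  simpa [mem_preimage, this] using hy

instance t2Y : T2Space Y := T2Space.of_injective_continuous pos_inj continuous_pos

instance lcY : WeaklyLocallyCompactSpace Y where
  exists_compact_mem_nhds y :=
    ⟨U y 0, isCompact_U y 0, (isOpen_U y 0).mem_nhds (Mem.self y 0)⟩

/-- No countable family of sets, each point of which is isolated in it, covers the space. -/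
theorem not_sigma_discrete (D : ℕ → Set Y) (hcov : ∀ y, ∃ n, y ∈ D n)
    (hD : ∀ n, ∀ y ∈ D n, ∃ V : Set Y, IsOpen V ∧ y ∈ V ∧ ∀ z ∈ V, z ∈ D n → z = y) :
    False := by
  classical
  let B : Ix → Set Y := fun a => {y | y ∈ D a.1 ∧ restr a.2.length (pos y) = a.2}
  have hne : Nonempty Om := by
    obtain ⟨ξ, _⟩ := exists_gt_Om (ι := Empty) (fun e => e.elim)
    exact ⟨ξ⟩
  have hb : ∀ a : Ix, ∃ b : Om, (∃ b' : Om, ∀ y ∈ B a, rk y ≤ b') → ∀ y ∈ B a, rk y ≤ b := by
    intro a
    by_cases h : ∃ b' : Om, ∀ y ∈ B a, rk y ≤ b'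
    · obtain ⟨b', hb'⟩ := h
      exact ⟨b', fun _ => hb'⟩
    · exact ⟨Classical.arbitrary _, fun h' => absurd h' h⟩
  choose b hb using hb
  obtain ⟨ξ, hξ⟩ := exists_gt_Om b
  have hs : ∀ a : Ix, ∃ w : Y, (∃ y ∈ B a, (ξ : WithBot Om) < rk y) →
      w ∈ B a ∧ (ξ : WithBot Om) < rk w := by
    intro a
    by_cases h : ∃ y ∈ B a, (ξ : WithBot Om) < rk y
    · obtain ⟨y, hy⟩ := h
      exact ⟨y, fun _ => hy⟩
    · exact ⟨Y.leaf, fun h' => absurd h' h⟩
  choose s hs using hs
  obtain ⟨n, hn⟩ := hcov (Y.node ξ s)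
  obtain ⟨V, hV, hyV, hiso⟩ := hD n _ hn
  obtain ⟨k, hk⟩ := isOpen_iff.1 hV _ hyV
  let j := Nat.pair n k
  let a : Ix := (n, restr j (pos (Y.node ξ s)))
  have hlen : a.2.length = j := by simp [a, restr]
  have hyB : Y.node ξ s ∈ B a := ⟨hn, by rw [hlen]⟩
  have hex : ∃ y ∈ B a, (ξ : WithBot Om) < rk y := by
    by_contra h
    push Not at h
    have h1 := hb a ⟨ξ, h⟩ _ hyB
    have h2 : (ξ : WithBot Om) ≤ b a := h1
    exact absurd (WithBot.coe_le_coe.1 h2) (not_le.2 (hξ a))
  obtain ⟨h1, h2⟩ := hs a hex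
  have hkid : kid (Y.node ξ s) j = s a := by
    simp only [kid, a, j, Nat.unpair_pair]
  have hgood : Good (Y.node ξ s) j := by
    refine ⟨by rw [hkid]; exact h2, ?_⟩
    rw [hkid, ← restr_eq_iff]
    have := h1.2
    rw [hlen] at this
    exact this
  have hmem : Mem (Y.node ξ s) k (s a) := by
    refine Mem.step (Nat.right_le_pair n k) hgood ?_
    rw [hkid]
    exact Mem.self _ _
  have h3 := hiso _ (hk _ hmem) h1.1
  rw [h3] at h2
  exact absurd h2 (lt_irrefl _)

/-- The rank on the one-point compactification. -/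
def rk' (x : OnePoint Y) : WithBot (WithBot Om) :=
  OnePoint.rec ⊥ (fun y => ((rk y : WithBot Om) : WithBot (WithBot Om))) x

/-- The left-separating well-order: first by rank, then by an arbitrary well-order. -/
def rel (a b : OnePoint Y) : Prop :=
  Prod.Lex (· < ·) WellOrderingRel (rk' a, a) (rk' b, b)

theorem isWellOrder_rel : IsWellOrder (OnePoint Y) rel := by
  let f : rel ↪r (Prod.Lex (· < ·) WellOrderingRel :
      WithBot (WithBot Om) × OnePoint Y → WithBot (WithBot Om) × OnePoint Y → Prop) :=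
    ⟨⟨fun a => (rk' a, a), fun a b h => congrArg Prod.snd h⟩, Iff.rfl⟩
  exact f.isWellOrder

theorem isOpen_final (x : OnePoint Y) : IsOpen {y : OnePoint Y | ¬ rel y x} := by
  have hirr : ∀ a : OnePoint Y, ¬ WellOrderingRel a a := fun a => irrefl a
  induction x using OnePoint.rec with
  | infty =>
    have : {y : OnePoint Y | ¬ rel y OnePoint.infty} = Set.univ := by
      refine eq_univ_of_forall fun y hy => ?_
      rw [rel, Prod.lex_def] at hy
      induction y using OnePoint.rec with
      | infty =>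
        rcases hy with h | h
        · exact absurd h (lt_irrefl _)
        · exact hirr _ h.2
      | coe y =>
        rcases hy with h | h
        · exact absurd h (not_lt_bot)
        · exact absurd h.1 (WithBot.coe_ne_bot)
    rw [this]
    exact isOpen_univ
  | coe x =>
    have hinf : OnePoint.infty ∉ {y : OnePoint Y | ¬ rel y (x : OnePoint Y)} := by
      intro h
      apply h
      rw [rel, Prod.lex_def]
      left
      exact WithBot.bot_lt_coe _
    rw [OnePoint.isOpen_iff_of_notMem hinf, isOpen_iff]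
    intro y hy
    refine ⟨0, fun z hz => ?_⟩
    rcases hz.rank with rfl | hr
    · exact hy
    · intro h
      apply hy
      rw [rel, Prod.lex_def] at h ⊢
      left
      have hr' : rk' (y : OnePoint Y) < rk' (z : OnePoint Y) := WithBot.coe_lt_coe.2 hr
      rcases h with h | h
      · exact hr'.trans h
      · exact hr'.trans_eq h.1

theorem main : ¬ ∃ D : ℕ → Set (OnePoint Y),
    (⋃ n, D n) = Set.univ ∧ ∀ n, DiscreteTopology (D n) := by
  rintro ⟨D, hcov, hD⟩
  refine not_sigma_discrete (fun n => ((↑) : Y → OnePoint Y) ⁻¹' D n) ?_ ?_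
  · intro y
    have : (y : OnePoint Y) ∈ ⋃ n, D n := hcov ▸ mem_univ _
    obtain ⟨n, hn⟩ := mem_iUnion.1 this
    exact ⟨n, hn⟩
  · intro n y hy
    have := hD n
    have h1 : IsOpen ({⟨(y : OnePoint Y), hy⟩} : Set (D n)) := isOpen_discrete _
    obtain ⟨W, hW, hW'⟩ := isOpen_induced_iff.1 h1
    refine ⟨((↑) : Y → OnePoint Y) ⁻¹' W, hW.preimage OnePoint.continuous_coe, ?_, ?_⟩
    · have : (⟨(y : OnePoint Y), hy⟩ : D n) ∈ Subtype.val ⁻¹' W := by
        rw [hW']; rfl
      exact this
    · intro z hz hzD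
      have : (⟨(z : OnePoint Y), hzD⟩ : D n) ∈ Subtype.val ⁻¹' W := hz
      rw [hW'] at this
      exact OnePoint.coe_injective (congrArg Subtype.val this)

end Pool.Agent.P.MP_a06b07_gt
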